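import Mathlib

/-!
# Partial free resolutions of a group and their Fox ideals

Definitions used by the hand-ins on Fox ideals of partial resolutions.
-/

set_option autoImplicit false

namespace Pool.Agent.Y66.FI

/-- the integral group ring `ℤG` -/
abbrev ZG (G : Type) [Group G] : Type := MonoidAlgebra ℤ G

/-- A *partial resolution* of length `m` of the group `G`: an exact sequence of left
`ℤG`-modules `C_m → C_{m-1} → ⋯ → C_0 → ℤ → 0`, where `C_i = (ℤG)^{rk i}` is finitely generated
free, exact at `C_0, …, C_{m-1}` and at `ℤ` (no exactness is required at `C_m`).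
The map `d0 : C_0 → ℤ` is `ℤG`-linear for the trivial action of `G` on `ℤ`, i.e. additive and
`G`-invariant, and `d i : C_{i+1} → C_i` is the boundary map `∂_{i+1}`.
(The data `rk i` for `i > m` and `d i` for `i ≥ m` play no role.) -/
structure PRes (G : Type) [Group G] (m : ℕ) where
  /-- the ranks -/
  rk : ℕ → ℕ
  /-- the map `∂_0 : C_0 → ℤ` -/
  d0 : (Fin (rk 0) → ZG G) →+ ℤ
  /-- the map `∂_{i+1} : C_{i+1} → C_i` -/
  d : ∀ i : ℕ, (Fin (rk (i + 1)) → ZG G) →ₗ[ZG G] (Fin (rk i) → ZG G)
  d0_smul : ∀ (g : G) (z : Fin (rk 0) → ZG G), d0 (MonoidAlgebra.of ℤ G g • z) = d0 z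
  d0_surj : Function.Surjective d0
  /-- exactness at `C_0`, if `0 < m` -/
  exact_zero : 0 < m → ∀ z, d0 z = 0 ↔ ∃ w, d 0 w = z
  /-- exactness at `C_{i+1}`, if `i + 1 < m` -/
  exact_succ : ∀ i : ℕ, i + 1 < m → ∀ z, d i z = 0 ↔ ∃ w, d (i + 1) w = z

namespace PRes

variable {G : Type} [Group G]

/-- `IsTopCycle m C z`: the element `z` of `C_m` lies in the kernel of `∂_m`. -/
def IsTopCycle : (m : ℕ) → (C : PRes G m) → (Fin (C.rk m) → ZG G) → Prop
  | 0, C, z => C.d0 z = 0
  | n + 1, C, z => C.d n z = 0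

variable {m : ℕ}

/-- The `m`-th Fox ideal of a partial resolution of length `m`: the two-sided ideal of `ℤG`
generated by all coefficients of all elements of the kernel of `∂_m`. -/
noncomputable def foxIdeal (C : PRes G m) : TwoSidedIdeal (ZG G) :=
  TwoSidedIdeal.span {a | ∃ z, IsTopCycle m C z ∧ ∃ j, a = z j}

/-- The directed Euler characteristic `∑_{i=0}^m (-1)^{i+m} rk C_i`. -/
def dchi (C : PRes G m) : ℤ :=
  ∑ i ∈ Finset.range (m + 1), (-1) ^ (i + m) * (C.rk i : ℤ)

/-- A partial resolution of length `m` of `G` is minimal if its directed Euler characteristic is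
the least one among all partial resolutions of length `m` of `G`. -/
def IsMinimal (C : PRes G m) : Prop :=
  ∀ E : PRes G m, C.dchi ≤ E.dchi

end PRes

end Pool.Agent.Y66.FI
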