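import Pool.Agent.Y66.FI.Mag

/-!
# Change of generators, relations, minimality
-/

set_option autoImplicit false

namespace Pool.Agent.Y66.FI

open PRes Pool.Agent.Y66.HC

section
variable {S : Type} [Ring S] {d : ℕ}

/-- the additive span of the group generated by a set of units -/
def SU (U : Set Sˣ) : Subring S :=
  Subring.closure ({z | ∃ w ∈ U, z = (w : S)} ∪ {z | ∃ w ∈ U, z = ((w⁻¹ : Sˣ) : S)})

theorem conj_eq (g : Gam S d) (v : Fin d → S) :
    g * (⟨1, v⟩ : Gam S d) * g⁻¹ = ⟨1, (g.u : S) • v⟩ := by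
  ext i
  · simp
  · simp

theorem smul_mem (H : Subgroup (Gam S d)) (U : Set Sˣ) (hU : ∀ w ∈ U, ∃ g ∈ H, g.u = w) {z : S}
    (hz : z ∈ SU U) : ∀ v : Fin d → S, (⟨1, v⟩ : Gam S d) ∈ H → (⟨1, z • v⟩ : Gam S d) ∈ H := by
  unfold SU at hz
  induction hz using Subring.closure_induction with
  | mem z hz =>
    rcases hz with ⟨w, hw, rfl⟩ | ⟨w, hw, rfl⟩
    · obtain ⟨g, hg, rfl⟩ := hU w hw
      intro v hv
      rw [← conj_eq]
      exact H.mul_mem (H.mul_mem hg hv) (H.inv_mem hg)
    · obtain ⟨g, hg, rfl⟩ := hU w hw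
      intro v hv
      rw [← Gam.inv_u, ← conj_eq]
      exact H.mul_mem (H.mul_mem (H.inv_mem hg) hv) (H.inv_mem (H.inv_mem hg))
  | zero => intro v hv; rw [zero_smul]; exact H.one_mem
  | one => intro v hv; rwa [one_smul]
  | add a b _ _ ha hb =>
    intro v hv
    have : (⟨1, (a + b) • v⟩ : Gam S d) = ⟨1, a • v⟩ * ⟨1, b • v⟩ := by
      ext i <;> simp [add_mul]
    rw [this]
    exact H.mul_mem (ha v hv) (hb v hv)
  | neg a _ ha =>
    intro v hv
    have : (⟨1, (-a) • v⟩ : Gam S d) = (⟨1, a • v⟩ : Gam S d)⁻¹ := by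
      ext i <;> simp
    rw [this]
    exact H.inv_mem (ha v hv)
  | mul a b _ _ ha hb =>
    intro v hv
    rw [mul_smul]
    exact ha _ (hb v hv)

end

theorem closure_top {Γ : Type} [Group Γ] {n : ℕ} (x : Fin n → Γ) (H : Subgroup Γ)
    (hH : Subgroup.closure (Set.range x) = H) (x' : Fin n → H) (hx' : ∀ j, (x' j).1 = x j) :
    Subgroup.closure (Set.range x') = ⊤ := by
  apply Subgroup.map_injective H.subtype_injective
  rw [MonoidHom.map_closure, ← Set.range_comp, ← MonoidHom.range_eq_map, Subgroup.range_subtype]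
  have h1 : (H.subtype ∘ x' : Fin n → Γ) = x := funext hx'
  refine Eq.trans ?_ hH
  exact congrArg (fun f : Fin n → Γ => Subgroup.closure (Set.range f)) h1

/-! ### Case A -/

section A

variable {S : Type} [Ring S] {k : ℕ} (u : Fin k → Sˣ)

/-- the family `(1, z e₀), (u_i, e_{i+1})` -/
def gA (z : S) : Fin (k + 1) → Gam S (k + 1) :=
  Fin.cons ⟨1, Pi.single 0 z⟩ (fun i => ⟨u i, Pi.single i.succ 1⟩)

theorem gA_le (z z' a : S) (ha : a ∈ SU (Set.range u)) (h : a * z' = z) :
    Subgroup.closure (Set.range (gA u z)) ≤ Subgroup.closure (Set.range (gA u z')) := by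
  rw [Subgroup.closure_le]
  rintro _ ⟨j, rfl⟩
  refine Fin.cases ?_ (fun i => ?_) j
  · have h1 := smul_mem (Subgroup.closure (Set.range (gA u z'))) (Set.range u) (by
      rintro _ ⟨i, rfl⟩
      exact ⟨gA u z' i.succ, Subgroup.subset_closure ⟨i.succ, rfl⟩, rfl⟩) ha
      (Pi.single 0 z') (Subgroup.subset_closure ⟨0, rfl⟩)
    have h2 : a • (Pi.single 0 z' : Fin (k + 1) → S) = Pi.single 0 z := by
      rw [← Pi.single_smul, smul_eq_mul, h]
    rw [h2] at h1
    exact h1
  · exact Subgroup.subset_closure ⟨i.succ, rfl⟩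

theorem dchi_one {G : Type} [Group G] (E : PRes G 1) : E.dchi = (E.rk 1 : ℤ) - E.rk 0 := by
  simp [dchi, Finset.sum_range_succ]
  ring

theorem caseA (κ : S →+* ZMod 2) (X Y : S) (hX : X ∈ SU (Set.range u)) (hY : Y ∈ SU (Set.range u))
    (hYX : Y * X = 1) (hXY : X * Y ≠ 1) :
    ∃ (G : Type) (_ : Group G) (C D : PRes G 1), C.IsMinimal ∧ D.IsMinimal ∧
      C.foxIdeal ≠ D.foxIdeal := by
  classical
  let H : Subgroup (Gam S (k + 1)) := Subgroup.closure (Set.range (gA u 1))
  have hle1 : Subgroup.closure (Set.range (gA u X)) ≤ H := gA_le u X 1 X hX (mul_one X)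
  have hle2 : H ≤ Subgroup.closure (Set.range (gA u X)) := gA_le u 1 X Y hY hYX
  let x : Fin (k + 1) → H := fun j => ⟨gA u 1 j, Subgroup.subset_closure ⟨j, rfl⟩⟩
  let y : Fin (k + 1) → H := fun j => ⟨gA u X j, hle1 (Subgroup.subset_closure ⟨j, rfl⟩)⟩
  have hx : Subgroup.closure (Set.range x) = ⊤ := closure_top (gA u 1) H rfl x fun _ => rfl
  have hy : Subgroup.closure (Set.range y) = ⊤ :=
    closure_top (gA u X) H (le_antisymm hle1 hle2) y fun _ => rfl
  have hxv : ∀ j, (x j).1.v = Pi.single j 1 := by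
    intro j
    refine Fin.cases rfl (fun i => rfl) j
  -- minimality
  have hmin : ∀ E : PRes H 1, ((k + 1 : ℕ) : ℤ) - 1 ≤ E.dchi := by
    intro E
    have h1 := lower (K := ZMod 2) (d := k + 1) (fun g : H => fun i => κ (g.1.v i)) (by
      intro g h
      funext i
      show κ ((g.1 * h.1).v i) = κ (g.1.v i) + κ (h.1.v i)
      rw [Gam.mul_v, Pi.add_apply, Pi.smul_apply, smul_eq_mul, map_add, map_mul]
      have h2 : κ (g.1.u : S) = 1 := by
        have h3 : κ (g.1.u : S) ≠ 0 := (g.1.u.isUnit.map κ).ne_zero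
        have h4 : ∀ a : ZMod 2, a ≠ 0 → a = 1 := by decide
        exact h4 _ h3
      rw [h2, one_mul]) x (by
      intro j
      funext i
      show κ ((x j).1.v i) = _
      rw [hxv]
      by_cases hij : i = j
      · subst hij; simp
      · simp [hij]) E
    rw [dchi_one]
    push_cast
    omega
  refine ⟨H, inferInstance, mkRes x hx, mkRes y hy, ?_, ?_, ?_⟩
  · intro E
    rw [mkRes_dchi]
    exact hmin E
  · intro E
    rw [mkRes_dchi]
    exact hmin E
  · intro heq
    have hker : (mkRes y hy).foxIdeal ≤ TwoSidedIdeal.ker (sg H) :=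
      heq ▸ foxIdeal_le_ker H x hx hxv
    obtain ⟨a, ha⟩ := (Pool.Agent.Y448.HC.fox_exact y hy (MonoidAlgebra.of ℤ H (x 0) - 1)).1 (by
      rw [map_sub, Pool.Agent.Y448.HC.augm_of, Pool.Agent.Y448.HC.augm_one, sub_self])
    obtain ⟨b, hb⟩ := (Pool.Agent.Y448.HC.fox_exact x hx (MonoidAlgebra.of ℤ H (y 0) - 1)).1 (by
      rw [map_sub, Pool.Agent.Y448.HC.augm_of, Pool.Agent.Y448.HC.augm_one, sub_self])
    -- the relation
    let c : Fin (k + 1) → ZG H := fun j => b 0 * a j + (if j = 0 then -1 else b j)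
    have hc : fox y c = 0 := by
      have h1 : fox y c = b 0 * fox y a + (-(MonoidAlgebra.of ℤ H (y 0) - 1) +
          ∑ i : Fin k, b i.succ * (MonoidAlgebra.of ℤ H (y i.succ) - 1)) := by
        change ∑ j, c j * (MonoidAlgebra.of ℤ H (y j) - 1) =
          b 0 * (∑ j, a j * (MonoidAlgebra.of ℤ H (y j) - 1)) + _
        simp only [c, add_mul, Finset.sum_add_distrib, Finset.mul_sum, mul_assoc]
        congr 1
        rw [Fin.sum_univ_succ, if_pos rfl, neg_one_mul]
        congr 1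
      have h2 : fox x b = b 0 * (MonoidAlgebra.of ℤ H (x 0) - 1) +
          ∑ i : Fin k, b i.succ * (MonoidAlgebra.of ℤ H (x i.succ) - 1) := by
        change ∑ j, b j * (MonoidAlgebra.of ℤ H (x j) - 1) = _
        rw [Fin.sum_univ_succ]
      have h3 : ∀ i : Fin k, x i.succ = y i.succ := fun i => rfl
      rw [h1, ha, ← hb, h2]
      simp only [h3]
      abel
    have h0 : c 0 ∈ (mkRes y hy).foxIdeal := mkRes_mem_foxIdeal y hy c hc 0
    have h1 := (TwoSidedIdeal.mem_ker (sg H)).1 (hker h0)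
    have hdv : ∀ g : H, dv H (MonoidAlgebra.of ℤ H g - 1) = g.1.v := by
      intro g
      have := dv_mul_sub H 1 g
      rwa [one_mul, map_one, one_smul] at this
    have hb0 : sg H (b 0) = X := by
      have h2 := dv_fox H x b
      rw [hb, hdv] at h2
      have h3 := congrFun h2 0
      rw [Finset.sum_apply, Finset.sum_eq_single 0] at h3
      · rw [hxv] at h3
        have h4 : (y 0).1.v 0 = X := by
          show (Pi.single 0 X : Fin (k + 1) → S) 0 = X
          simp
        rw [h4] at h3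
        simpa using h3.symm
      · intro j _ hj
        rw [hxv]
        simp [hj.symm]
      · simp
    have ha0 : sg H (a 0) * X = 1 := by
      have h2 := dv_fox H y a
      rw [ha, hdv] at h2
      have h3 := congrFun h2 0
      rw [Finset.sum_apply, Finset.sum_eq_single 0] at h3
      · rw [hxv] at h3
        have h4 : (y 0).1.v = (Pi.single 0 X : Fin (k + 1) → S) := rfl
        rw [h4] at h3
        simpa using h3.symm
      · intro j _ hj
        obtain ⟨i, rfl⟩ := Fin.exists_succ_eq.2 hj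
        show (sg H (a i.succ) • (Pi.single i.succ 1 : Fin (k + 1) → S)) 0 = 0
        simp
      · simp
    have h2 : sg H (c 0) = X * sg H (a 0) - 1 := by
      show sg H (b 0 * a 0 + (if (0 : Fin (k + 1)) = 0 then -1 else b 0)) = _
      rw [if_pos rfl, map_add, map_mul, hb0, map_neg, map_one, sub_eq_add_neg]
    rw [h2, sub_eq_zero] at h1
    apply hXY
    have h3 : Y = sg H (a 0) := by
      calc Y = Y * (X * sg H (a 0)) := by rw [h1, mul_one]
        _ = sg H (a 0) := by rw [← mul_assoc, hYX, one_mul]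
    rw [h3]
    exact h1

end A

/-! ### Case B -/

section B

variable {S : Type} [Ring S] {k : ℕ} (u : Fin k → Sˣ)

/-- the family `(1, e₀), (1, e₁), (u_i, e_{i+2})` -/
def gB : Fin (k + 2) → Gam S (k + 2) :=
  Fin.cons ⟨1, Pi.single 0 1⟩ (Fin.cons ⟨1, Pi.single 1 1⟩
    (fun i => ⟨u i, Pi.single i.succ.succ 1⟩))

/-- the family `(1, v), (u_i, e_{i+2})` -/
def gB' (v : Fin (k + 2) → S) : Fin (k + 1) → Gam S (k + 2) :=
  Fin.cons ⟨1, v⟩ (fun i => ⟨u i, Pi.single i.succ.succ 1⟩)

theorem caseB [Nontrivial S] (X X' Y Y' : S) (hX : X ∈ SU (Set.range u))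
    (hX' : X' ∈ SU (Set.range u)) (hY : Y ∈ SU (Set.range u)) (hY' : Y' ∈ SU (Set.range u))
    (hYX : Y * X = 1) (hYX' : Y * X' = 0) (hY'X : Y' * X = 0) (hY'X' : Y' * X' = 1) :
    ∃ (G : Type) (_ : Group G) (C : PRes G 1), (∃ M : PRes G 1, M.IsMinimal ∧ M.dchi < C.dchi) ∧
      C.foxIdeal ≠ ⊤ := by
  classical
  let v : Fin (k + 2) → S := Pi.single 0 X + Pi.single 1 X'
  let H : Subgroup (Gam S (k + 2)) := Subgroup.closure (Set.range (gB u))
  have hle1 : Subgroup.closure (Set.range (gB' u v)) ≤ H := by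
    rw [Subgroup.closure_le]
    rintro _ ⟨j, rfl⟩
    refine Fin.cases ?_ (fun i => ?_) j
    · have hU : ∀ w ∈ Set.range u, ∃ g ∈ H, g.u = w := by
        rintro _ ⟨i, rfl⟩
        exact ⟨gB u i.succ.succ, Subgroup.subset_closure ⟨i.succ.succ, rfl⟩, rfl⟩
      have h1 := smul_mem H (Set.range u) hU hX (Pi.single 0 1)
        (Subgroup.subset_closure ⟨0, rfl⟩)
      have h2 := smul_mem H (Set.range u) hU hX' (Pi.single 1 1)
        (Subgroup.subset_closure ⟨1, rfl⟩)
      have h3 : gB' u v 0 = (⟨1, X • Pi.single 0 1⟩ : Gam S (k + 2)) * ⟨1, X' • Pi.single 1 1⟩ := by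
        show (⟨1, Pi.single 0 X + Pi.single 1 X'⟩ : Gam S (k + 2)) = _
        rw [← Pi.single_smul, ← Pi.single_smul, smul_eq_mul, smul_eq_mul, mul_one, mul_one]
        ext i <;> simp
      rw [h3]
      exact H.mul_mem h1 h2
    · exact Subgroup.subset_closure ⟨i.succ.succ, rfl⟩
  have hle2 : H ≤ Subgroup.closure (Set.range (gB' u v)) := by
    rw [Subgroup.closure_le]
    have hU : ∀ w ∈ Set.range u, ∃ g ∈ Subgroup.closure (Set.range (gB' u v)), g.u = w := by
      rintro _ ⟨i, rfl⟩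
      exact ⟨gB' u v i.succ, Subgroup.subset_closure ⟨i.succ, rfl⟩, rfl⟩
    rintro _ ⟨j, rfl⟩
    refine Fin.cases ?_ (fun j => Fin.cases ?_ (fun i => ?_) j) j
    · have h1 := smul_mem _ (Set.range u) hU hY v (Subgroup.subset_closure ⟨0, rfl⟩)
      have h2 : Y • v = Pi.single 0 1 := by
        simp only [v]
        rw [smul_add, ← Pi.single_smul, ← Pi.single_smul, smul_eq_mul, smul_eq_mul, hYX, hYX',
          Pi.single_zero, add_zero]
      rw [h2] at h1
      exact h1
    · have h1 := smul_mem _ (Set.range u) hU hY' v (Subgroup.subset_closure ⟨0, rfl⟩)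
      have h2 : Y' • v = Pi.single 1 1 := by
        simp only [v]
        rw [smul_add, ← Pi.single_smul, ← Pi.single_smul, smul_eq_mul, smul_eq_mul, hY'X, hY'X',
          Pi.single_zero, zero_add]
      rw [h2] at h1
      exact h1
    · exact Subgroup.subset_closure ⟨i.succ, rfl⟩
  let x : Fin (k + 2) → H := fun j => ⟨gB u j, Subgroup.subset_closure ⟨j, rfl⟩⟩
  let y : Fin (k + 1) → H := fun j => ⟨gB' u v j, hle1 (Subgroup.subset_closure ⟨j, rfl⟩)⟩
  have hx : Subgroup.closure (Set.range x) = ⊤ := closure_top (gB u) H rfl x fun _ => rfl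
  have hy : Subgroup.closure (Set.range y) = ⊤ :=
    closure_top (gB' u v) H (le_antisymm hle1 hle2) y fun _ => rfl
  have hxv : ∀ j, (x j).1.v = Pi.single j 1 := by
    intro j
    refine Fin.cases rfl (fun j => Fin.cases rfl (fun i => rfl) j) j
  refine ⟨H, inferInstance, mkRes x hx, ?_, ?_⟩
  · obtain ⟨lb, ⟨M, hM⟩, h⟩ := Int.exists_least_of_bdd (P := fun n => ∃ E : PRes H 1, E.dchi = n)
      ⟨-1, by
        rintro z ⟨E, rfl⟩
        have h1 := lower (K := ZMod 2) (d := 0) (fun _ : H => 0) (fun _ _ => by simp)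
          (fun j => Fin.elim0 j) (fun j => Fin.elim0 j) E
        rw [dchi_one]
        omega⟩ ⟨_, mkRes y hy, rfl⟩
    refine ⟨M, ?_, ?_⟩
    · intro E
      rw [hM]
      exact h _ ⟨E, rfl⟩
    · have h1 := h _ ⟨mkRes y hy, rfl⟩
      rw [hM, mkRes_dchi]
      rw [mkRes_dchi] at h1
      push_cast at h1 ⊢
      omega
  · intro htop
    have h1 := foxIdeal_le_ker H x hx hxv
    rw [htop] at h1
    have h2 : (1 : ZG H) ∈ TwoSidedIdeal.ker (sg H) := h1 trivial
    rw [TwoSidedIdeal.mem_ker, map_one] at h2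
    exact one_ne_zero h2

end B

end Pool.Agent.Y66.FI
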