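import Pool.Agent.Y66.FI.Defs

/-!
# A lower bound for the directed Euler characteristic of partial resolutions of length one
-/

set_option autoImplicit false

namespace Pool.Agent.Y66.FI

open PRes

variable {G : Type} [Group G]

/-- the augmentation -/
noncomputable def eps (G : Type) [Group G] (R : Type) [CommRing R] : ZG G →+* R :=
  (MonoidAlgebra.lift ℤ R G (1 : G →* R)).toRingHom

theorem eps_of (R : Type) [CommRing R] (g : G) : eps G R (MonoidAlgebra.of ℤ G g) = 1 := by
  simp [eps]

theorem eps_single (R : Type) [CommRing R] (g : G) (n : ℤ) :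
    eps G R (MonoidAlgebra.single g n) = (n : R) := by
  simp [eps]

theorem d0_smul' {m : ℕ} (E : PRes G m) (a : ZG G) (z : Fin (E.rk 0) → ZG G) :
    E.d0 (a • z) = eps G ℤ a * E.d0 z := by
  let f : ZG G →+ ℤ := E.d0.comp ((AddMonoidHom.flip
    (smulAddHom (ZG G) (Fin (E.rk 0) → ZG G))) z)
  let f' : ZG G →+ ℤ := (AddMonoidHom.mulRight (E.d0 z)).comp (eps G ℤ).toAddMonoidHom
  have : f = f' := by
    apply MonoidAlgebra.addMonoidHom_ext
    intro g n
    show E.d0 ((MonoidAlgebra.single g n : ZG G) • z) = eps G ℤ (MonoidAlgebra.single g n) * E.d0 z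
    have h1 : (MonoidAlgebra.single g n : ZG G) = n • MonoidAlgebra.of ℤ G g := by
      rw [MonoidAlgebra.of_apply, MonoidAlgebra.smul_single, smul_eq_mul, mul_one]
    rw [eps_single, h1, smul_assoc, map_zsmul, E.d0_smul, smul_eq_mul]
    simp
  exact DFunLike.congr_fun this a

/-- the additive extension of a homomorphism into an additive group -/
noncomputable def Dt {Q : Type} [AddCommGroup Q] (δ : G → Q) : ZG G →+ Q :=
  (Finsupp.liftAddHom (fun g : G => (zmultiplesHom Q (δ g)))).comp
    MonoidAlgebra.coeffAddEquiv.toAddMonoidHom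

theorem Dt_single {Q : Type} [AddCommGroup Q] (δ : G → Q) (g : G) (n : ℤ) :
    Dt δ (MonoidAlgebra.single g n) = n • δ g := by
  simp [Dt]

theorem Dt_mul {K Q : Type} [CommRing K] [AddCommGroup Q] [Module K Q] (δ : G → Q)
    (hδ : ∀ g h, δ (g * h) = δ g + δ h) (a b : ZG G) :
    Dt δ (a * b) = eps G K b • Dt δ a + eps G K a • Dt δ b := by
  let f : ZG G →+ ZG G →+ Q := (AddMonoidHom.compr₂ (AddMonoidHom.mul) (Dt δ))
  let f' : ZG G →+ ZG G →+ Q :=
    ((AddMonoidHom.compl₂ ((smulAddHom K Q).comp (eps G K).toAddMonoidHom) (Dt δ))) +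
    (AddMonoidHom.flip (AddMonoidHom.compl₂ ((smulAddHom K Q).comp (eps G K).toAddMonoidHom)
      (Dt δ)))
  have : f = f' := by
    apply MonoidAlgebra.addMonoidHom_ext
    intro g n
    apply MonoidAlgebra.addMonoidHom_ext
    intro h k
    show Dt δ (MonoidAlgebra.single g n * MonoidAlgebra.single h k) =
      eps G K (MonoidAlgebra.single g n) • Dt δ (MonoidAlgebra.single h k) +
      eps G K (MonoidAlgebra.single h k) • Dt δ (MonoidAlgebra.single g n)
    rw [MonoidAlgebra.single_mul_single, Dt_single, Dt_single, Dt_single, eps_single, eps_single,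
      hδ, Int.cast_smul_eq_zsmul, Int.cast_smul_eq_zsmul, smul_add, smul_smul, smul_smul, add_comm,
      mul_comm k n]
  have h2 := DFunLike.congr_fun (DFunLike.congr_fun this a) b
  rw [add_comm]
  exact h2

/-- **Lower bound.** If `G` maps onto `K^d` with elements `x_j` mapping to the standard basis
vectors, then every partial resolution of length one satisfies `d + rk 0 ≤ rk 1 + 1`. -/
theorem lower {K : Type} [Field K] {d : ℕ} (δ : G → (Fin d → K))
    (hδ : ∀ g h, δ (g * h) = δ g + δ h) (x : Fin d → G)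
    (hx : ∀ j, δ (x j) = Pi.single j 1) (E : PRes G 1) : d + E.rk 0 ≤ E.rk 1 + 1 := by
  classical
  let r0 := E.rk 0
  let r1 := E.rk 1
  let V := (Fin d → K) × (Fin r0 → K)
  let t : Fin r0 → ℤ := fun i => E.d0 (Pi.single i 1)
  obtain ⟨e, he⟩ := E.d0_surj 1
  -- the map `g₀`
  let g0 : (Fin r0 → ZG G) → ZG G := fun z => ∑ i, z i * ((t i : ℤ) : ZG G)
  have g0_add : ∀ y z, g0 (y + z) = g0 y + g0 z := by
    intro y z
    simp only [g0, Pi.add_apply, add_mul, Finset.sum_add_distrib]
  have g0_smul : ∀ (a : ZG G) z, g0 (a • z) = a * g0 z := by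
    intro a z
    simp only [g0, Pi.smul_apply, smul_eq_mul, Finset.mul_sum, mul_assoc]
  have d0_eq : ∀ z : Fin r0 → ZG G, E.d0 z = ∑ i, eps G ℤ (z i) * t i := by
    intro z
    have : z = ∑ i, z i • (Pi.single i (1 : ZG G) : Fin r0 → ZG G) := by
      funext j
      rw [Finset.sum_apply, Finset.sum_eq_single j]
      · simp
      · intro b _ hb
        simp [hb.symm]
      · simp
    conv_lhs => rw [this]
    rw [map_sum]
    exact Finset.sum_congr rfl fun i _ => d0_smul' E _ _
  have eps_g0 : ∀ z, eps G K (g0 z) = ((E.d0 z : ℤ) : K) := by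
    intro z
    rw [d0_eq]
    simp only [g0, map_sum, map_mul, Int.cast_sum, Int.cast_mul, map_intCast]
    refine Finset.sum_congr rfl fun i _ => ?_
    congr 1
    have : (eps G K : ZG G →+* K) = (Int.castRingHom K).comp (eps G ℤ) := by
      apply MonoidAlgebra.ringHom_ext
      · intro r; simp [eps_single]
      · intro g; simp [eps_single]
    rw [this]; rfl
  let Θ : (Fin r0 → ZG G) → V := fun z => (Dt δ (g0 z), fun i => eps G K (z i))
  have Θ_add : ∀ y z, Θ (y + z) = Θ y + Θ z := by
    intro y z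
    refine Prod.ext ?_ ?_
    · show Dt δ (g0 (y + z)) = Dt δ (g0 y) + Dt δ (g0 z)
      rw [g0_add, map_add]
    · funext i
      show eps G K (y i + z i) = eps G K (y i) + eps G K (z i)
      rw [map_add]
  have Θ_smul : ∀ (a : ZG G) z, E.d0 z = 0 → Θ (a • z) = eps G K a • Θ z := by
    intro a z hz
    refine Prod.ext ?_ ?_
    · show Dt δ (g0 (a • z)) = eps G K a • Dt δ (g0 z)
      rw [g0_smul, Dt_mul (K := K) δ hδ, eps_g0, hz, Int.cast_zero, zero_smul, zero_add]
    · funext i
      show eps G K (a * z i) = eps G K a * eps G K (z i)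
      rw [map_mul]
  let b : Fin r1 → (Fin r0 → ZG G) := fun i => E.d 0 (Pi.single i 1)
  have hb : ∀ i, E.d0 (b i) = 0 := fun i => (E.exact_zero one_pos _).2 ⟨_, rfl⟩
  let W : Submodule K V := Submodule.span K (Set.range fun i => Θ (b i))
  have hW : ∀ z, E.d0 z = 0 → Θ z ∈ W := by
    intro z hz
    obtain ⟨w, rfl⟩ := (E.exact_zero one_pos z).1 hz
    have h1 : E.d 0 w = ∑ i, w i • b i := by
      have : w = ∑ i, w i • (Pi.single i (1 : ZG G) : Fin r1 → ZG G) := by
        funext j
        rw [Finset.sum_apply, Finset.sum_eq_single j]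
        · simp
        · intro b _ hb
          simp [hb.symm]
        · simp
      conv_lhs => rw [this]
      rw [map_sum]
      exact Finset.sum_congr rfl fun i _ => map_smul _ _ _
    rw [h1]
    let Θ' : (Fin r0 → ZG G) →+ V := AddMonoidHom.mk' Θ Θ_add
    have : Θ (∑ i, w i • b i) = ∑ i, eps G K (w i) • Θ (b i) := by
      show Θ' (∑ i, w i • b i) = _
      rw [map_sum]
      exact Finset.sum_congr rfl fun i _ => Θ_smul _ _ (hb i)
    rw [this]
    exact Submodule.sum_mem _ fun i _ => W.smul_mem _ (Submodule.subset_span ⟨i, rfl⟩)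
  let f : Option (Fin r1) → V := fun o => o.elim (0, fun i => eps G K (e i)) fun i => Θ (b i)
  let W' : Submodule K V := Submodule.span K (Set.range f)
  have hWW' : W ≤ W' := Submodule.span_mono (by rintro _ ⟨i, rfl⟩; exact ⟨some i, rfl⟩)
  have hn : ((0, fun i => eps G K (e i)) : V) ∈ W' := Submodule.subset_span ⟨none, rfl⟩
  have h1 : ∀ j, ((Pi.single j 1, 0) : V) ∈ W' := by
    intro j
    apply hWW'
    have h2 := hW ((MonoidAlgebra.of ℤ G (x j) - 1) • e) (by
      rw [d0_smul', map_sub, eps_of, map_one, sub_self, zero_mul])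
    have h3 : Θ ((MonoidAlgebra.of ℤ G (x j) - 1) • e) = (Pi.single j 1, 0) := by
      refine Prod.ext ?_ ?_
      · show Dt δ (g0 ((MonoidAlgebra.of ℤ G (x j) - 1) • e)) = _
        rw [g0_smul, Dt_mul (K := K) δ hδ, eps_g0, he, map_sub (eps G K), eps_of, map_one, sub_self,
          zero_smul, add_zero, Int.cast_one, one_smul, map_sub,
          MonoidAlgebra.of_apply, Dt_single, one_smul, hx,
          show (1 : ZG G) = MonoidAlgebra.single 1 1 from rfl, Dt_single, one_smul]
        have : δ 1 = 0 := by simpa using hδ 1 1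
        rw [this, sub_zero]
      · funext i
        show eps G K ((MonoidAlgebra.of ℤ G (x j) - 1) * e i) = 0
        rw [map_mul, map_sub, eps_of, map_one, sub_self, zero_mul]
    rwa [h3] at h2
  have h1' : ∀ u : Fin d → K, ((u, 0) : V) ∈ W' := by
    intro u
    have : ((u, 0) : V) = ∑ j, u j • ((Pi.single j 1, 0) : V) := by
      refine Prod.ext ?_ ?_
      · rw [Prod.fst_sum]
        funext i
        rw [Finset.sum_apply, Finset.sum_eq_single i]
        · simp
        · intro b _ hb
          simp [hb.symm]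
        · simp
      · rw [Prod.snd_sum]
        simp
    rw [this]
    exact Submodule.sum_mem _ fun j _ => W'.smul_mem _ (h1 j)
  have h2 : ∀ i : Fin r0, ((0, Pi.single i 1) : V) ∈ W' := by
    intro i
    have h3 := hWW' (hW (Pi.single i 1 - ((t i : ℤ) : ZG G) • e) (by
      rw [map_sub, d0_smul', he, mul_one, map_intCast]
      show t i - t i = 0
      exact sub_self _))
    have h4 : ((0, Pi.single i 1) : V) = Θ (Pi.single i 1 - ((t i : ℤ) : ZG G) • e) -
        (Dt δ (g0 (Pi.single i 1 - ((t i : ℤ) : ZG G) • e)), 0) +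
        ((t i : ℤ) : K) • ((0, fun i => eps G K (e i)) : V) := by
      refine Prod.ext ?_ ?_
      · show (0 : Fin d → K) = Dt δ (g0 (Pi.single i 1 - ((t i : ℤ) : ZG G) • e)) -
          Dt δ (g0 (Pi.single i 1 - ((t i : ℤ) : ZG G) • e)) + ((t i : ℤ) : K) • 0
        rw [sub_self, smul_zero, add_zero]
      · funext j
        show (Pi.single i (1 : K) : Fin r0 → K) j =
          eps G K ((Pi.single i (1 : ZG G) : Fin r0 → ZG G) j - ((t i : ℤ) : ZG G) * e j) - 0 +
          ((t i : ℤ) : K) * eps G K (e j)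
        rw [map_sub, map_mul, map_intCast, sub_zero, sub_add_cancel]
        by_cases hij : j = i
        · subst hij; simp
        · simp [hij]
    rw [h4]
    exact W'.add_mem (W'.sub_mem h3 (h1' _)) (W'.smul_mem _ hn)
  have htop : W' = ⊤ := by
    rw [eq_top_iff]
    rintro ⟨u, v⟩ -
    have : ((u, v) : V) = (u, 0) + ∑ j, v j • ((0, Pi.single j 1) : V) := by
      refine Prod.ext ?_ ?_
      · rw [Prod.fst_add, Prod.fst_sum]
        simp
      · rw [Prod.snd_add, Prod.snd_sum]
        funext i
        simp only [zero_add]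
        rw [Finset.sum_apply, Finset.sum_eq_single i]
        · simp
        · intro b _ hb
          simp [hb.symm]
        · simp
    rw [this]
    exact W'.add_mem (h1' u) (Submodule.sum_mem _ fun j _ => W'.smul_mem _ (h2 j))
  have hfin : Module.finrank K V = d + r0 := by
    simp [V, Module.finrank_prod]
  have hle : Module.finrank K W' ≤ Fintype.card (Option (Fin r1)) := finrank_range_le_card f
  rw [htop, finrank_top, hfin] at hle
  simpa using hle

end Pool.Agent.Y66.FI
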