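import Pool.Agent.Y66.FI.Lower
import Pool.Agent.Y448.HC.Aug

/-!
# The groups `Sˣ ⋉ S^d`, their subgroups, and the associated partial resolutions
-/

set_option autoImplicit false

namespace Pool.Agent.Y66.FI

open PRes

/-- the semidirect product `Sˣ ⋉ S^d` -/
@[ext] structure Gam (S : Type) [Ring S] (d : ℕ) where
  u : Sˣ
  v : Fin d → S

namespace Gam

variable {S : Type} [Ring S] {d : ℕ}

instance : Mul (Gam S d) := ⟨fun a b => ⟨a.u * b.u, a.v + (a.u : S) • b.v⟩⟩
instance : One (Gam S d) := ⟨⟨1, 0⟩⟩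
instance : Inv (Gam S d) := ⟨fun a => ⟨a.u⁻¹, -(((a.u⁻¹ : Sˣ) : S) • a.v)⟩⟩

@[simp] theorem mul_u (a b : Gam S d) : (a * b).u = a.u * b.u := rfl
@[simp] theorem mul_v (a b : Gam S d) : (a * b).v = a.v + (a.u : S) • b.v := rfl
@[simp] theorem one_u : (1 : Gam S d).u = 1 := rfl
@[simp] theorem one_v : (1 : Gam S d).v = 0 := rfl
@[simp] theorem inv_u (a : Gam S d) : a⁻¹.u = a.u⁻¹ := rfl
@[simp] theorem inv_v (a : Gam S d) : a⁻¹.v = -(((a.u⁻¹ : Sˣ) : S) • a.v) := rfl

instance : Group (Gam S d) :=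
  Group.ofLeftAxioms
    (by
      intro a b c
      ext i
      · simp [mul_assoc]
      · simp [add_assoc, mul_assoc])
    (by
      intro a
      ext i
      · simp
      · simp)
    (by
      intro a
      ext i
      · simp
      · simp)

end Gam

/-- the subgroup generated by a family, as a type -/
abbrev Grp {S : Type} [Ring S] {d n : ℕ} (x : Fin n → Gam S d) : Subgroup (Gam S d) :=
  Subgroup.closure (Set.range x)

section
variable {S : Type} [Ring S] {d : ℕ} (H : Subgroup (Gam S d))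

/-- the unit part, on the group ring -/
noncomputable def sg : ZG H →+* S :=
  (MonoidAlgebra.lift ℤ S H
    ({ toFun := fun g => (g.1.u : S)
       map_one' := rfl
       map_mul' := fun _ _ => rfl } : H →* S)).toRingHom

theorem sg_single (g : H) (n : ℤ) : sg H (MonoidAlgebra.single g n) = n • (g.1.u : S) := by
  simp [sg]

theorem sg_of (g : H) : sg H (MonoidAlgebra.of ℤ H g) = (g.1.u : S) := by
  rw [MonoidAlgebra.of_apply, sg_single, one_smul]

/-- the vector part -/
noncomputable def dv : ZG H →+ (Fin d → S) := Dt (fun g : H => g.1.v)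

theorem dv_mul_sub (c : ZG H) (g : H) :
    dv H (c * (MonoidAlgebra.of ℤ H g - 1)) = sg H c • g.1.v := by
  let f : ZG H →+ (Fin d → S) := (dv H).comp (AddMonoidHom.mulRight (MonoidAlgebra.of ℤ H g - 1))
  let f' : ZG H →+ (Fin d → S) := (AddMonoidHom.flip (smulAddHom S (Fin d → S)) g.1.v).comp
    (sg H).toAddMonoidHom
  have : f = f' := by
    apply MonoidAlgebra.addMonoidHom_ext
    intro h n
    show dv H (MonoidAlgebra.single h n * (MonoidAlgebra.of ℤ H g - 1)) =
      sg H (MonoidAlgebra.single h n) • g.1.v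
    rw [mul_sub, mul_one, MonoidAlgebra.of_apply, MonoidAlgebra.single_mul_single, mul_one, map_sub,
      sg_single, dv, Dt_single, Dt_single, ← smul_sub, smul_assoc]
    congr 1
    show (h.1 * g.1).v - h.1.v = _
    rw [Gam.mul_v, add_sub_cancel_left]
  exact DFunLike.congr_fun this c

/-- the fox boundary map of a family -/
theorem dv_fox {n : ℕ} (x : Fin n → H) (c : Fin n → ZG H) :
    dv H (Pool.Agent.Y66.HC.fox x c) = ∑ j, sg H (c j) • (x j).1.v := by
  change dv H (∑ i, c i * (MonoidAlgebra.of ℤ H (x i) - 1)) = _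
  rw [map_sum]
  exact Finset.sum_congr rfl fun j _ => dv_mul_sub H _ _

end

section
variable {G : Type} [Group G] {n : ℕ}

open Pool.Agent.Y66.HC Pool.Agent.W326.DU in
/-- The partial resolution `(ℤG)^n → ℤG → ℤ` of length one associated with a generating family
of `G`. -/
noncomputable def mkRes (x : Fin n → G) (hx : Subgroup.closure (Set.range x) = ⊤) : PRes G 1 where
  rk i := match i with
    | 0 => 1
    | _ + 1 => n
  d0 := ((augm G : ZG G →+ ℤ)).comp (Pi.evalAddMonoidHom (fun _ : Fin 1 => ZG G) (0 : Fin 1))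
  d i := match i with
    | 0 => LinearMap.pi (fun _ => fox x)
    | _ + 1 => 0
  d0_smul g z := by
    show augm G (MonoidAlgebra.of ℤ G g * z (0 : Fin 1)) = augm G (z (0 : Fin 1))
    rw [Pool.Agent.Y448.HC.augm_mul, Pool.Agent.Y448.HC.augm_of, one_mul]
  d0_surj k := by
    obtain ⟨a, ha⟩ := Pool.Agent.Y448.HC.augm_surj (G := G) k
    exact ⟨fun _ => a, ha⟩
  exact_zero _ z := by
    show augm G (z (0 : Fin 1)) = 0 ↔ ∃ w : Fin n → ZG G, (LinearMap.pi (fun _ : Fin 1 => fox x)) w = z
    rw [Pool.Agent.Y448.HC.fox_exact x hx]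
    constructor
    · rintro ⟨w, hw⟩
      refine ⟨w, ?_⟩
      funext i
      rw [Subsingleton.elim i 0]
      exact hw
    · rintro ⟨w, rfl⟩
      exact ⟨w, rfl⟩
  exact_succ i hi := by omega

theorem mkRes_dchi (x : Fin n → G) (hx : Subgroup.closure (Set.range x) = ⊤) :
    (mkRes x hx).dchi = (n : ℤ) - 1 := by
  simp [dchi, mkRes, Finset.sum_range_succ]
  ring

theorem mkRes_mem_foxIdeal (x : Fin n → G) (hx : Subgroup.closure (Set.range x) = ⊤)
    (c : Fin n → ZG G) (hc : Pool.Agent.Y66.HC.fox x c = 0) (j : Fin n) :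
    c j ∈ (mkRes x hx).foxIdeal := by
  apply TwoSidedIdeal.subset_span
  refine ⟨c, ?_, j, rfl⟩
  show (LinearMap.pi (fun _ : Fin 1 => Pool.Agent.Y66.HC.fox x)) c = 0
  funext i
  exact hc

theorem mkRes_foxIdeal_le (x : Fin n → G) (hx : Subgroup.closure (Set.range x) = ⊤)
    (I : TwoSidedIdeal (ZG G))
    (h : ∀ c : Fin n → ZG G, Pool.Agent.Y66.HC.fox x c = 0 → ∀ j, c j ∈ I) :
    (mkRes x hx).foxIdeal ≤ I := by
  apply TwoSidedIdeal.span_le.2
  rintro a ⟨z, hz, j, rfl⟩
  have h1 : (LinearMap.pi (fun _ : Fin 1 => Pool.Agent.Y66.HC.fox x)) z = 0 := hz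
  exact h z (congrFun h1 0) j

end

/-- the case of equal vectors: the coefficients of a relation are killed by `sg` -/
theorem foxIdeal_le_ker {S : Type} [Ring S] {d : ℕ} (H : Subgroup (Gam S d)) (x : Fin d → H)
    (hx : Subgroup.closure (Set.range x) = ⊤) (hv : ∀ j, (x j).1.v = Pi.single j 1) :
    (mkRes x hx).foxIdeal ≤ TwoSidedIdeal.ker (sg H) := by
  apply mkRes_foxIdeal_le
  intro c hc j
  rw [TwoSidedIdeal.mem_ker]
  have h1 := dv_fox H x c
  rw [hc, map_zero] at h1
  have h2 := congrFun h1 j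
  rw [Finset.sum_apply, Finset.sum_eq_single j] at h2
  · rw [hv] at h2
    simpa using h2.symm
  · intro b _ hb
    rw [hv]
    simp [hb.symm]
  · simp

end Pool.Agent.Y66.FI
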