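import Pool.Agent.Y66.FI.Gen

/-!
# Matrix rings over rings that are not Dedekind finite
-/

set_option autoImplicit false

namespace Pool.Agent.Y66.FI

section
variable {E R' : Type} [Ring E] [Ring R']

/-- upper transvection -/
def Tu (z : E) : (Matrix (Fin 2) (Fin 2) E)ˣ where
  val := !![1, z; 0, 1]
  inv := !![1, -z; 0, 1]
  val_inv := by
    ext i j
    fin_cases i <;> fin_cases j <;> simp [Matrix.mul_apply, Fin.sum_univ_two]
  inv_val := by
    ext i j
    fin_cases i <;> fin_cases j <;> simp [Matrix.mul_apply, Fin.sum_univ_two]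

/-- lower transvection -/
def Tl : (Matrix (Fin 2) (Fin 2) E)ˣ where
  val := !![1, 0; 1, 1]
  inv := !![1, 0; -1, 1]
  val_inv := by
    ext i j
    fin_cases i <;> fin_cases j <;> simp [Matrix.mul_apply, Fin.sum_univ_two]
  inv_val := by
    ext i j
    fin_cases i <;> fin_cases j <;> simp [Matrix.mul_apply, Fin.sum_univ_two]

/-- a matrix unit paired with `1` -/
def pu (a : (Matrix (Fin 2) (Fin 2) E)ˣ) : (Matrix (Fin 2) (Fin 2) E × R')ˣ :=
  MulEquiv.prodUnits.symm (a, 1)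

theorem pu_val (a : (Matrix (Fin 2) (Fin 2) E)ˣ) : ((pu a : (Matrix (Fin 2) (Fin 2) E × R')ˣ) :
    Matrix (Fin 2) (Fin 2) E × R') = ((a : Matrix (Fin 2) (Fin 2) E), 1) := rfl

/-- the family of units -/
def uf (R' : Type) [Ring R'] {k : ℕ} (z : Fin k → E) :
    Fin (k + 2) → (Matrix (Fin 2) (Fin 2) E × R')ˣ :=
  Fin.cons (pu (Tu 1)) (Fin.cons (pu Tl) fun i => pu (Tu (z i)))

/-- the scalars -/
def scal (R' : Type) [Ring R'] (z : E) : Matrix (Fin 2) (Fin 2) E × R' :=
  (Matrix.diagonal fun _ => z, 1)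

theorem scal_mem {k : ℕ} (z : Fin k → E) (i : Fin k) : scal R' (z i) ∈ SU (Set.range (uf R' z)) := by
  have hmem : ∀ j, ((uf R' z j : (Matrix (Fin 2) (Fin 2) E × R')ˣ) :
      Matrix (Fin 2) (Fin 2) E × R') ∈ SU (Set.range (uf R' z)) := fun j =>
    Subring.subset_closure (Or.inl ⟨_, ⟨j, rfl⟩, rfl⟩)
  have h1 : ((!![1, 1; 0, 1] : Matrix (Fin 2) (Fin 2) E), (1 : R')) ∈ SU (Set.range (uf R' z)) :=
    hmem 0
  have h2 : ((!![1, 0; 1, 1] : Matrix (Fin 2) (Fin 2) E), (1 : R')) ∈ SU (Set.range (uf R' z)) :=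
    hmem 1
  have h3 : ((!![1, z i; 0, 1] : Matrix (Fin 2) (Fin 2) E), (1 : R')) ∈ SU (Set.range (uf R' z)) :=
    hmem i.succ.succ
  set Q := SU (Set.range (uf R' z)) with hQ
  have k1 := Q.sub_mem h1 Q.one_mem
  have k2 := Q.sub_mem h2 Q.one_mem
  have k3 := Q.sub_mem h3 Q.one_mem
  have k4 := Q.add_mem (Q.mul_mem k3 k2) (Q.mul_mem k2 k3)
  have k5 := Q.add_mem (Q.mul_mem k1 k2) (Q.mul_mem k2 k1)
  have k6 := Q.add_mem k4 (Q.sub_mem Q.one_mem k5)
  have e : scal R' (z i) = (((!![1, z i; 0, 1] : Matrix (Fin 2) (Fin 2) E), (1 : R')) - 1) *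
      (((!![1, 0; 1, 1] : Matrix (Fin 2) (Fin 2) E), (1 : R')) - 1) +
      (((!![1, 0; 1, 1] : Matrix (Fin 2) (Fin 2) E), (1 : R')) - 1) *
      (((!![1, z i; 0, 1] : Matrix (Fin 2) (Fin 2) E), (1 : R')) - 1) + (1 -
      ((((!![1, 1; 0, 1] : Matrix (Fin 2) (Fin 2) E), (1 : R')) - 1) *
      (((!![1, 0; 1, 1] : Matrix (Fin 2) (Fin 2) E), (1 : R')) - 1) +
      (((!![1, 0; 1, 1] : Matrix (Fin 2) (Fin 2) E), (1 : R')) - 1) *
      (((!![1, 1; 0, 1] : Matrix (Fin 2) (Fin 2) E), (1 : R')) - 1))) := by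
    refine Prod.ext ?_ ?_
    · ext a b
      fin_cases a <;> fin_cases b <;> simp [scal, Matrix.mul_apply, Fin.sum_univ_two]
    · simp [scal]
  rw [e]
  exact k6

theorem scal_mul (y z : E) : scal R' y * scal R' z = scal R' (y * z) := by
  refine Prod.ext ?_ ?_
  · simp [scal]
  · simp [scal]

theorem scal_one : scal R' (1 : E) = 1 := by
  refine Prod.ext ?_ rfl
  simp [scal]

theorem scal_inj {y z : E} (h : scal R' y = scal R' z) : y = z := by
  have h1 := congrArg Prod.fst h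
  have h2 := congrFun (congrFun h1 0) 0
  simpa [scal] using h2

end

/-! ### The endomorphism ring of `ℤ^ℕ` -/

/-- the endomorphism ring of `ℤ^ℕ` -/
abbrev EE : Type := Module.End ℤ (ℕ → ℤ)

/-- the left inverse shift -/
def sy : EE := LinearMap.funLeft ℤ ℤ Nat.succ

/-- the shift -/
def sx : EE where
  toFun s := fun n => match n with
    | 0 => 0
    | n + 1 => s n
  map_add' s t := by
    funext n
    cases n <;> simp
  map_smul' a s := by
    funext n
    cases n <;> simp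

theorem sy_sx : sy * sx = 1 := by
  ext s n
  rfl

theorem sx_sy : sx * sy ≠ 1 := by
  intro h
  have h1 := LinearMap.congr_fun h (fun _ => 1)
  have h2 := congrFun h1 0
  have h3 : (0 : ℤ) = 1 := h2
  exact absurd h3 (by norm_num)

/-- even coordinates -/
def ey : EE := LinearMap.funLeft ℤ ℤ (fun n => 2 * n)

/-- odd coordinates -/
def oy : EE := LinearMap.funLeft ℤ ℤ (fun n => 2 * n + 1)

/-- push into even coordinates -/
def ex : EE where
  toFun s := fun n => if n % 2 = 0 then s (n / 2) else 0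
  map_add' s t := by
    funext n
    by_cases h : n % 2 = 0 <;> simp [h]
  map_smul' a s := by
    funext n
    by_cases h : n % 2 = 0 <;> simp [h]

/-- push into odd coordinates -/
def ox : EE where
  toFun s := fun n => if n % 2 = 0 then 0 else s (n / 2)
  map_add' s t := by
    funext n
    by_cases h : n % 2 = 0 <;> simp [h]
  map_smul' a s := by
    funext n
    by_cases h : n % 2 = 0 <;> simp [h]

theorem ey_ex : ey * ex = 1 := by
  refine LinearMap.ext fun s => funext fun n => ?_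
  show (if (2 * n) % 2 = 0 then s ((2 * n) / 2) else 0) = s n
  rw [if_pos (by omega), show 2 * n / 2 = n by omega]

theorem ey_ox : ey * ox = 0 := by
  refine LinearMap.ext fun s => funext fun n => ?_
  show (if (2 * n) % 2 = 0 then 0 else s ((2 * n) / 2)) = 0
  rw [if_pos (by omega)]

theorem oy_ex : oy * ex = 0 := by
  refine LinearMap.ext fun s => funext fun n => ?_
  show (if (2 * n + 1) % 2 = 0 then s ((2 * n + 1) / 2) else 0) = 0
  rw [if_neg (by omega)]

theorem oy_ox : oy * ox = 1 := by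
  refine LinearMap.ext fun s => funext fun n => ?_
  show (if (2 * n + 1) % 2 = 0 then 0 else s ((2 * n + 1) / 2)) = s n
  rw [if_neg (by omega), show (2 * n + 1) / 2 = n by omega]

theorem ee_nontrivial : (1 : EE) ≠ 0 := by
  intro h
  have h1 := congrFun (LinearMap.congr_fun h (fun _ => 1)) 0
  have h2 : (1 : ℤ) = 0 := h1
  exact absurd h2 (by norm_num)

open PRes

theorem mainA : ∃ (G : Type) (_ : Group G) (C D : PRes G 1), C.IsMinimal ∧ D.IsMinimal ∧
    C.foxIdeal ≠ D.foxIdeal := by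
  let z : Fin 2 → EE := ![sx, sy]
  refine caseA (uf (ZMod 2) z) (RingHom.snd _ _) (scal (ZMod 2) sx) (scal (ZMod 2) sy)
    (scal_mem z 0) (scal_mem z 1) ?_ ?_
  · rw [scal_mul, sy_sx, scal_one]
  · rw [scal_mul]
    intro h
    rw [← scal_one] at h
    exact sx_sy (scal_inj h)

theorem mainB : ∃ (G : Type) (_ : Group G) (C : PRes G 1),
    (∃ M : PRes G 1, M.IsMinimal ∧ M.dchi < C.dchi) ∧ C.foxIdeal ≠ ⊤ := by
  let z : Fin 4 → EE := ![ex, ox, ey, oy]
  have : Nontrivial (Matrix (Fin 2) (Fin 2) EE × PUnit.{1}) := by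
    refine ⟨1, 0, fun h => ?_⟩
    have h1 := congrFun (congrFun (congrArg Prod.fst h) 0) 0
    exact ee_nontrivial h1
  refine caseB (uf PUnit.{1} z) (scal _ ex) (scal _ ox) (scal _ ey) (scal _ oy)
    (scal_mem z 0) (scal_mem z 1) (scal_mem z 2) (scal_mem z 3) ?_ ?_ ?_ ?_
  · rw [scal_mul, ey_ex, scal_one]
  · rw [scal_mul, ey_ox]
    refine Prod.ext ?_ rfl
    simp [scal]
  · rw [scal_mul, oy_ex]
    refine Prod.ext ?_ rfl
    simp [scal]
  · rw [scal_mul, oy_ox, scal_one]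

end Pool.Agent.Y66.FI
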